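import Pool.Agent.H18.VZ.Targets
import Pool.Agent.H8.P2.CONE

/-! HMG: the homogeneous component of the right degree. -/

set_option autoImplicit false

open MvPolynomial
open Pool.Agent.H12.ZD (pmap)
open Pool.Agent.H18.HIT Pool.Agent.H18.HX Pool.Agent.H18.VZ
open Pool.Agent.H8.P2 (sc sc_sc sc_hom vdm_mem)
open Pool.Agent.H55.HIT (sum_hc)

namespace Pool.Agent.H37.VZ

section

variable {N : ℕ} {k : Type} [Field k] {κ : Type} [Field κ] [Algebra k κ]

theorem HMG_sc_up (l : k) (g : Po N k) : sc l (up g) = up (sc l g) := by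
  have h1 : (sc l : Po (N + 1) k →ₐ[k] Po (N + 1) k).comp
      (rename Fin.succ : Po N k →ₐ[k] Po (N + 1) k) =
      (rename Fin.succ : Po N k →ₐ[k] Po (N + 1) k).comp (sc l) := by
    apply algHom_ext
    intro i
    simp only [sc, AlgHom.comp_apply, rename_X, aeval_X, map_mul, rename_C]
  exact DFunLike.congr_fun h1 g

theorem HMG_pderiv (l : k) (i : Fin N) (g : Po N k) :
    pderiv i (sc l g) = C l * sc l (pderiv i g) := by
  induction g using MvPolynomial.induction_on with
  | C c =>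
    have h1 : sc l (C c : Po N k) = C c := by
      rw [sc, aeval_C, algebraMap_eq]
    rw [h1, pderiv_C, map_zero, mul_zero]
  | add p q hp hq => rw [map_add, map_add, map_add, map_add, hp, hq, mul_add]
  | mul_X p j hp =>
    have h1 : sc l (X j : Po N k) = C l * X j := by
      rw [sc, aeval_X]
    rw [map_mul, h1, Derivation.leibniz, Derivation.leibniz, Derivation.leibniz, pderiv_C,
      map_add, smul_eq_mul, smul_eq_mul, smul_eq_mul, smul_eq_mul, smul_eq_mul, smul_eq_mul,
      map_mul, map_mul, hp, h1, mul_zero, add_zero]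
    by_cases hij : j = i
    · subst hij
      rw [pderiv_X_self, map_one]
      ring
    · rw [pderiv_X_of_ne hij, map_zero]
      ring

theorem HMG_sum (l : k) (q : Po N k) (M : ℕ) (hM : q.totalDegree ≤ M) :
    sc l q = ∑ j ∈ Finset.range (M + 1), C (l ^ j) * homogeneousComponent j q := by
  have h1 := congrArg (sc l) (sum_hc hM)
  rw [map_sum] at h1
  rw [← h1]
  exact Finset.sum_congr rfl fun j _ => sc_hom (homogeneousComponent_isHomogeneous j q) l

theorem HMG_mem {H : Ideal (Po N k)} (hH : Hmi H) (c : Po N k) (hc : c ∈ H) (l : k) :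
    sc l c ∈ H := by
  rw [HMG_sum l c _ le_rfl]
  exact Ideal.sum_mem _ fun j _ => H.mul_mem_left _ (hH c hc j)

theorem HMG_hom {P : Po (N + 1) k} {H : Ideal (Po (N + 1) k)} {h : Po N k} (hP : Pdv P H h)
    (hH : Hmi H) : ∃ d, h.IsHomogeneous (d + 1) := by
  have hh0 : h ≠ 0 := hP.irr.ne_zero
  have hdvd : ∀ t, h ∣ homogeneousComponent t h := by
    intro t
    rw [← hP.iff]
    have h1 : up (homogeneousComponent t h) = homogeneousComponent t (up h) :=
      rename_homogeneousComponent t h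
    rw [h1]
    exact hH _ ((hP.iff h).2 dvd_rfl) t
  obtain ⟨s, hs, hs2⟩ := Finset.exists_mem_eq_sup h.support
    (Finset.nonempty_iff_ne_empty.2 fun h0 => hh0 (support_eq_empty.1 h0))
    (fun s => s.sum fun _ e => e)
  have hs3 : h.totalDegree = s.degree := hs2
  have hne : homogeneousComponent h.totalDegree h ≠ 0 := by
    intro h0
    have h1 := congrArg (coeff s) h0
    rw [coeff_homogeneousComponent, if_pos hs3.symm, coeff_zero] at h1
    exact mem_support_iff.1 hs h1
  obtain ⟨q, hq⟩ := hdvd h.totalDegree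
  have hq0 : q ≠ 0 := by
    rintro rfl
    rw [mul_zero] at hq
    exact hne hq
  have h1 : (homogeneousComponent h.totalDegree h).totalDegree = h.totalDegree :=
    (homogeneousComponent_isHomogeneous _ h).totalDegree hne
  have h2 : q.totalDegree = 0 := by
    have h3 := congrArg totalDegree hq
    rw [h1, totalDegree_mul_of_isDomain hh0 hq0] at h3
    omega
  rw [totalDegree_eq_zero_iff_eq_C] at h2
  obtain ⟨c, hc⟩ : ∃ c, c = coeff 0 q := ⟨_, rfl⟩
  rw [← hc] at h2
  have hc0 : c ≠ 0 := by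
    rintro rfl
    rw [C_0] at h2
    exact hq0 h2
  have h3 : h = C c⁻¹ * homogeneousComponent h.totalDegree h := by
    rw [hq, h2, mul_comm h, ← mul_assoc, ← C_mul, inv_mul_cancel₀ hc0, C_1, one_mul]
  have h4 : h.IsHomogeneous h.totalDegree := by
    rw [h3]
    have h5 := (isHomogeneous_C (Fin N) c⁻¹).mul
      (homogeneousComponent_isHomogeneous h.totalDegree h)
    rw [zero_add] at h5
    rw [← h3]
    rw [← h3] at h5
    exact h5
  have h5 : h.totalDegree ≠ 0 := by
    intro h0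
    rw [totalDegree_eq_zero_iff_eq_C] at h0
    apply hP.irr.not_isUnit
    rw [h0]
    refine (isUnit_iff_ne_zero.2 ?_).map C
    intro h6
    rw [h6, C_0] at h0
    exact hh0 h0
  obtain ⟨d, hd⟩ := Nat.exists_eq_succ_of_ne_zero h5
  rw [hd] at h4
  exact ⟨d, h4⟩

theorem HMG_arc {P : Po (N + 1) k} {r : ℕ} (hP : Hyp P r)
    {ψ : Po (N + 1) k →ₐ[k] PowerSeries κ} (hψ : Arc P ψ) {l : k} (hl : l ≠ 0) :
    Arc P (ψ.comp (sc l)) := by
  intro c
  rw [AlgHom.comp_apply, hψ (sc l c)]
  constructor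
  · rintro ⟨q, hq⟩
    have h1 := congrArg (sc l⁻¹) hq
    rw [sc_sc _ _ (inv_mul_cancel₀ hl), map_mul, sc_hom hP.hom] at h1
    exact ⟨C (l⁻¹ ^ r) * sc l⁻¹ q, by rw [h1]; ring⟩
  · rintro ⟨q, rfl⟩
    rw [map_mul, sc_hom hP.hom]
    exact ⟨C (l ^ r) * sc l q, by ring⟩

theorem HMG_C (ψ : Po N k →ₐ[k] PowerSeries κ) (c : k) (x : Po N k) :
    ψ (C c * x) = c • ψ x := by
  rw [← smul_eq_C_mul, map_smul]

theorem HMG_expand (ψ : Po N k →ₐ[k] PowerSeries κ) (u : Po N k) (n : ℕ)
    (hu : u.IsHomogeneous n) (a : Po N k) (M : ℕ) (hM : a.totalDegree ≤ M) (l : k) :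
    ψ (sc l (u * a)) =
      l ^ n • ∑ j : Fin (M + 1), l ^ (j : ℕ) • ψ (u * homogeneousComponent (j : ℕ) a) := by
  rw [map_mul (sc l), sc_hom hu, HMG_sum l a M hM, Finset.mul_sum, map_sum, Finset.smul_sum,
    Finset.sum_range]
  refine Finset.sum_congr rfl fun j _ => ?_
  rw [← HMG_C, ← HMG_C]
  congr 1
  ring

theorem HMG_dvd {x y : PowerSeries κ} {c c' : k} (hc : c' ≠ 0) (h : c • x ∣ c' • y) : x ∣ y := by
  have h1 : x ∣ c • x := by
    rw [Algebra.smul_def]
    exact Dvd.intro_left _ rfl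
  have h2 : x ∣ c' • y := h1.trans h
  have h3 : y = algebraMap k (PowerSeries κ) c'⁻¹ * (c' • y) := by
    rw [← Algebra.smul_def, smul_smul, inv_mul_cancel₀ hc, one_smul]
  rw [h3]
  exact h2.mul_left _

theorem HMG_vdm [CharZero k] {x : PowerSeries κ} {M : ℕ} (q : Fin M → PowerSeries κ)
    (h : ∀ l : k, l ≠ 0 → x ∣ ∑ j : Fin M, l ^ (j : ℕ) • q j) (j : Fin M) : x ∣ q j := by
  have h1 := vdm_mem ((Ideal.span {x}).restrictScalars k) (fun i : Fin M => ((i : ℕ) + 1 : k))
    (by
      intro a b hab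
      have h2 : ((a : ℕ) : k) = ((b : ℕ) : k) := by simpa using hab
      exact Fin.ext (Nat.cast_injective h2)) q
    (by
      intro i
      rw [Submodule.restrictScalars_mem, Ideal.mem_span_singleton]
      exact h _ (Nat.cast_add_one_ne_zero _)) j
  rwa [Submodule.restrictScalars_mem, Ideal.mem_span_singleton] at h1

end

theorem pf_HMG : T_HMG := by
  intro N r m k _ _ _ P H h i a w hP hPdv hH hw hD
  obtain ⟨d, hd⟩ := HMG_hom hPdv hH
  obtain ⟨M, hM⟩ : ∃ M, M = max a.totalDegree m := ⟨_, rfl⟩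
  have hMa : a.totalDegree ≤ M := by rw [hM]; exact le_max_left _ _
  have hMm : m < M + 1 := by rw [hM]; exact Nat.lt_succ_of_le (le_max_right _ _)
  have hPx : (pderiv 0 P).IsHomogeneous (r - 1) := hP.hom.pderiv
  have hhd : (pderiv i h).IsHomogeneous d := hd.pderiv
  have huph : (up h).IsHomogeneous (d + 1) := hd.rename_isHomogeneous
  have hupd : (up (pderiv i h)).IsHomogeneous d := hhd.rename_isHomogeneous
  refine ⟨hD.ne, ?_, ?_, ?_⟩
  · rintro κ _ _ ψ hψ ⟨c, hc, hc2⟩
    refine HMG_vdm (k := k) (x := ψ w)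
      (fun j : Fin (M + 1) => ψ (pderiv 0 P * homogeneousComponent (j : ℕ) a)) ?_ ⟨m, hMm⟩
    intro l hl
    have h1 := hD.reg κ (ψ.comp (sc l)) (HMG_arc hP hψ hl) ⟨sc l⁻¹ c, HMG_mem hH c hc _, by
      unfold rd
      rw [AlgHom.comp_apply, sc_sc _ _ (mul_inv_cancel₀ hl)]
      exact hc2⟩
    rw [AlgHom.comp_apply, AlgHom.comp_apply, sc_hom hw, HMG_C, HMG_expand ψ _ _ hPx a M hMa] at h1
    exact HMG_dvd (pow_ne_zero _ hl) h1
  · intro κ _ _ ψ hψ hc hx
    have key := HMG_vdm (k := k) (x := ψ (w * up h)) (fun j : Fin (M + 1) =>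
      ψ (up h * homogeneousComponent (j : ℕ) a) -
        if j = (⟨m, hMm⟩ : Fin (M + 1)) then ψ (w * up (pderiv i h)) else 0) ?_ ⟨m, hMm⟩
    · rw [if_pos rfl, ← map_sub, mul_comm (up h)] at key
      exact key
    intro l hl
    have h1 := hD.res κ (ψ.comp (sc l)) (HMG_arc hP hψ hl) (by
      intro c
      have h2 : rd (ψ.comp (sc l)) c = rd ψ (sc l c) := rfl
      rw [h2, hc (sc l c)]
      constructor
      · intro h3
        have h4 := HMG_mem hH _ h3 l⁻¹
        rwa [sc_sc _ _ (inv_mul_cancel₀ hl)] at h4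
      · intro h3
        exact HMG_mem hH _ h3 l) (by
      have h2 : rd (ψ.comp (sc l)) (pderiv 0 P) =
          algebraMap k κ (l ^ (r - 1)) * rd ψ (pderiv 0 P) := by
        unfold rd
        rw [AlgHom.comp_apply, sc_hom hPx, HMG_C, Algebra.smul_def, map_mul]
        rfl
      rw [h2]
      refine mul_ne_zero ?_ hx
      rw [map_ne_zero]
      exact pow_ne_zero _ hl)
    have h2 : ψ (sc l (w * up (pderiv i h))) =
        l ^ (d + 1) • l ^ m • ψ (w * up (pderiv i h)) := by
      rw [sc_hom (hw.mul hupd), HMG_C, smul_smul, ← pow_add]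
      congr 2
      ring
    rw [AlgHom.comp_apply, AlgHom.comp_apply, sc_hom (hw.mul huph), HMG_C, map_sub (sc l),
      map_sub ψ, h2, mul_comm a, HMG_expand ψ _ _ huph a M hMa, ← smul_sub] at h1
    have h3 := HMG_dvd (pow_ne_zero _ hl) h1
    have h4 : ∑ j : Fin (M + 1), l ^ (j : ℕ) • (ψ (up h * homogeneousComponent (j : ℕ) a) -
        if j = (⟨m, hMm⟩ : Fin (M + 1)) then ψ (w * up (pderiv i h)) else 0) =
        ∑ j : Fin (M + 1), l ^ (j : ℕ) • ψ (up h * homogeneousComponent (j : ℕ) a) -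
          l ^ m • ψ (w * up (pderiv i h)) := by
      simp only [smul_sub, Finset.sum_sub_distrib, smul_ite, smul_zero, Finset.sum_ite_eq',
        Finset.mem_univ, if_true]
    rw [h4]
    exact h3
  · intro κ _ _ ψ hψ B hB
    have key := HMG_vdm (k := k) (x := ψ w) (fun j : Fin (M + 1) =>
      PowerSeries.X ^ B * ψ (pderiv 0 P * homogeneousComponent (j : ℕ) a)) ?_ ⟨m, hMm⟩
    · exact key
    intro l hl
    have h1 := hD.bnd κ (ψ.comp (sc l)) (HMG_arc hP hψ hl) B (by
      intro g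
      rw [AlgHom.comp_apply, AlgHom.comp_apply, HMG_sc_up, HMG_sc_up]
      have h2 := hB (sc l g)
      rw [HMG_pderiv] at h2
      have h3 : ψ (up (C l * sc l (pderiv i g))) = l • ψ (up (sc l (pderiv i g))) := by
        unfold up
        rw [map_mul, rename_C, HMG_C]
      rw [h3, mul_smul_comm] at h2
      have h4 : (1 : k) • ψ (up (sc l g)) ∣
          l • (PowerSeries.X ^ B * ψ (up (sc l (pderiv i g)))) := by
        rw [one_smul]
        exact h2
      exact HMG_dvd hl h4)
    rw [AlgHom.comp_apply, AlgHom.comp_apply, sc_hom hw, HMG_C, HMG_expand ψ _ _ hPx a M hMa,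
      mul_smul_comm, Finset.mul_sum] at h1
    simp only [mul_smul_comm] at h1
    exact HMG_dvd (pow_ne_zero _ hl) h1

end Pool.Agent.H37.VZ
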